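import Pool.Agent.Helper29.UG.Props
import Pool.Agent.Helper19.RC.Csup

/-!
# MP_b55b7c_an, project UG: packet UG-AbSub (subprojections of an abelian projection)
-/

open scoped ENNReal NNReal InnerProductSpace ComplexOrder
open Filter Topology

attribute [-instance] CStarMatrix.instAlgebra CStarMatrix.instModule CStarMatrix.instSMul
  CStarMatrix.instMulAction CStarMatrix.instDistribMulAction

noncomputable section
namespace RC
universe u

theorem absubP : AbSubP.{u} := by
  intro H _ _ _ S hS f hf hfp hab g hg hgp hfg
  obtain ⟨c, hc, hcg, hcq⟩ := csupP H S hS g hg hgp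
  have hgf : g * f = g := by
    have h := congrArg star hfg
    rwa [star_mul, hgp.isSelfAdjoint.star_eq, hfp.isSelfAdjoint.star_eq] at h
  have hgg : g * g = g := hgp.isIdempotentElem
  have key : ∀ x ∈ S.centralizer, (f - g) * x * g = 0 := by
    intro x hx
    have h1 := hab x hx g hg
    have h2 : f * x * g = g * x * f := by
      calc f * x * g = f * x * (f * g) * f := by rw [hfg, mul_assoc (f * x), hgf]
        _ = f * x * f * g * f := by rw [← mul_assoc (f * x) f g]
        _ = f * g * f * x * f := h1
        _ = g * x * f := by rw [hfg, hgf]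
    have h3 : g * x * g = f * x * g := by
      calc g * x * g = g * f * x * g := by rw [hgf]
        _ = g * (f * x * g) := by simp only [mul_assoc]
        _ = g * (g * x * f) := by rw [h2]
        _ = g * g * x * f := by simp only [mul_assoc]
        _ = f * x * g := by rw [hgg, h2]
    rw [sub_mul, sub_mul, h3, sub_self]
  have hfgm : f - g ∈ S.centralizer := by
    rw [Set.mem_centralizer_iff] at hf hg ⊢
    intro m hm
    rw [mul_sub, sub_mul, hf m hm, hg m hm]
  have h4 := hcq (f - g) hfgm key
  rw [sub_mul, sub_eq_zero] at h4
  exact ⟨c, hc, by rw [h4, ← hc.2.2 g hg, hcg], hcq⟩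

end RC
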